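import Pool.Agent.H.MP_7eb7a8_an.C

open Pool.Agent.H.MP_7eb7a8_an

namespace Pool.Agent.Results.MP_c73427_an.No

theorem result (X : Type) [TopologicalSpace X] [T35Space X] (V : Type) [AddCommGroup V]
    [Module ℝ V] [TopologicalSpace V] (δ : X → V) (h : IsFreeLCS δ) (H : MultiReflexive V) :
    Schwartz V :=
  h.schwartz H

end Pool.Agent.Results.MP_c73427_an.No
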